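import Mathlib
import Pool.Agent.J4.H67.EW.Fin
import Pool.Agent.J4.H67.EW.Gl2
import Pool.Agent.Y698.SG.Inp

/-!
# The order of vanishing formula of Bloch and Kato in all even weights, for the powers of the Hecke
# characters of negative quadratic twists of `X_0(49)`, over multiquadratic fields

Let `E_D` be the quadratic twist by `D` of `X_0(49)`, `ψ_D` its Hecke character over
`K = ℚ(√-7) = ℚ(w)`, `w² = w - 2`, and let `k > 0` be even. The newform of weight `2k` of the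
character `ψ_D^(2k-1)` has a polarized Chow motive over `ℚ`, a direct summand of
`h^(2k-1)(E_D^(2k-1))(k)`, whose `2`-adic realization `V` is induced from the character
`κ^k κ'^(1-k)` of `Gal(ℚ̄/K)`; here `κ`, `κ'` are the characters by which `Gal(ℚ̄/K)` acts on the
`2`-adic Tate module of `E_D`. For even `k` the sign of the functional equation is that of `-D`: so
the twists `D < 0` are considered (for them it is `-1` for all odd `k`).

The class consists of the numbers `D = -m`, `m = q p_1 ⋯ p_r`, with different primes inert in `K`,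
`q = 3 mod 8` and `p_i = 1 mod 4`, `r ≥ 0`.

Theorem: let `F = ℚ(√d_1, …, √d_n)`, of degree `2 ^ n`, and assume that all the numbers
`-m ∏_{i ∈ T} d_i` are in the class, up to squares. This is so for all `-m` in the class and all `d_i`
with prime factors `1` modulo `4` and inert in `K`. Then for ALL even `k > 0` the `L`-function of the
motive over `F` is entire and not zero at the centre, `H⁰(F, V) = 0` and `H¹_f(F, V) = 0`: this is the
order of vanishing formula for the prime `2`. There is no other condition.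

On the proof. Let `k = e + 1`. The central value `L(ψ_D^(2e+1), e + 1)` is a sum, over the division
points modulo `√-7 m`, of values of the numbers of Eisenstein and Kronecker
`∑ (conj (u + l))^e / (u + l)^(e+1)`, which are polynomials in `℘`, `℘'`, and a second period. For odd
`e` we compute these numbers modulo `4`: together with a combination of the numbers for `e = 0` at other
multiples they are `2 (μ + μ² + μ³ + μ⁴)` modulo `4`, where `μ = 1 / (x(T) - x)` and `T` is a point of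
order four. The sum over the points of order `√-7` of this function, the distribution relations for
`μ` and `μ³`, and an induction over the set of the primes give that the `2`-adic valuation of
`e! L(ψ_D^(2e+1), e + 1)`, divided by the period, is exactly `r + 3`, for all odd `e` at once.
-/

set_option autoImplicit false

namespace Pool.Agent.Results.MP_ec4e4b_nt.AllEvenWeights

open Pool.Agent.Results.MP_787500_nt.AllWeightsMultiquadraticX49
  (QBar K Gal Chr Iso ED TateModule chi)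
open Pool.Agent.Results.MP_6e2fc3_nt.CMFormsAllWeights (GQ GF ind Zero)
open WeierstrassCurve Filter Topology

/-- The prime `p` is inert in `K = ℚ(√-7)`. -/
def Inert (p : ℕ) : Prop := p % 7 = 3 ∨ p % 7 = 5 ∨ p % 7 = 6

/-- The class: `m = q r` with a prime `q = 3 mod 8` inert in `K` and `r` squarefree, all of whose prime
factors are `1 mod 4` and inert in `K`. -/
def InClass (m : ℕ) : Prop := ∃ q r : ℕ, q.Prime ∧ q % 8 = 3 ∧ Inert q ∧ Squarefree r ∧
  (∀ p : ℕ, p.Prime → p ∣ r → p % 4 = 1 ∧ Inert p) ∧ m = q * r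

/-- No product of some of the `d_i` is a square: `ℚ(√d_1, …, √d_n)` has degree `2 ^ n`. -/
def Ind {n : ℕ} (d : Fin n → ℕ) : Prop :=
  ∀ T : Finset (Fin n), T.Nonempty → ¬ IsSquare (∏ i ∈ T, d i)

/-- All the numbers `m ∏_{i ∈ T} d_i` are in the class, up to nonzero squares. -/
def Good (m : ℕ) {n : ℕ} (d : Fin n → ℕ) : Prop := ∀ T : Finset (Fin n), ∃ D k : ℕ,
  k ≠ 0 ∧ InClass D ∧ m * ∏ i ∈ T, d i = D * k ^ 2

/-- The curve `E_{-m} : y² + x y = x³ + ((3 m - 1) / 4) x² - 2 m² x + m³` over `ℚ`, the quadratic twist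
by `-m` of `X_0(49) : y² + x y = x³ - x² - 2 x - 1`. -/
def E (m : ℕ) : WeierstrassCurve ℚ :=
  { a₁ := 1, a₂ := (3 * (m : ℚ) - 1) / 4, a₃ := 0, a₄ := -2 * (m : ℚ) ^ 2, a₆ := (m : ℚ) ^ 3 }

/-- The curve `E_{-m}` over `K`. -/
noncomputable def EK (w : QBar) (m : ℕ) : WeierstrassCurve (K w) := (E m).map (algebraMap ℚ (K w))

/-- The element `√-7 m` of the ring of integers of `K`. -/
def tw (m : ℕ) : QuadraticAlgebra ℤ (-2) 1 := ⟨-m, 2 * m⟩

/-- The number of the solutions modulo `p` of the equation of `E_{-m}`, for `m = 3` modulo `4`. -/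
noncomputable def points (m p : ℕ) : ℕ :=
  Nat.card {P : ZMod p × ZMod p // P.2 ^ 2 + P.1 * P.2 = P.1 ^ 3 +
    (((3 * m - 1) / 4 : ℕ) : ZMod p) * P.1 ^ 2 - 2 * (m : ZMod p) ^ 2 * P.1 + (m : ZMod p) ^ 3}

/-- The trace of the Frobenius element of `E_{-m}` at the prime `p`, and zero if `p` divides `7 m`. -/
noncomputable def trace (m p : ℕ) : ℤ := if p ∣ 7 * m then 0 else (p : ℤ) - points m p

/-- The number `p`, and zero if `p` divides `7 m`. -/
def det (m p : ℕ) : ℤ := if p ∣ 7 * m then 0 else p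

/-- The sum `α ^ n + β ^ n` for the roots `α`, `β` of `X² - a X + e`. -/
def powerSum (a e : ℤ) : ℕ → ℤ
  | 0 => 2
  | 1 => a
  | n + 2 => a * powerSum a e (n + 1) - e * powerSum a e n

/-- The entire function `Λ` is the `L`-function of the newform of weight `2k` of the Hecke character
`ψ_{-m}^(2k-1)`, as an Euler product for `Re s > k + 1/2`. The centre is `s = k`. -/
def IsL (m k : ℕ) (Λ : ℂ → ℂ) : Prop :=
  Differentiable ℂ Λ ∧ ∀ s : ℂ, (k : ℝ) + 1 / 2 < s.re → HasProd (fun p : Nat.Primes =>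
    (1 - (powerSum (trace m p) (det m p) (2 * k - 1) : ℂ) * ((p : ℕ) : ℂ) ^ (-s) +
      (det m p : ℂ) ^ (2 * k - 1) * (((p : ℕ) : ℂ) ^ (-s)) ^ 2)⁻¹) (Λ s)

/-- For `d_1, …, d_n` independent modulo squares, `Λ` is the `L`-function over
`F = ℚ(√d_1, …, √d_n)` of the newform of `ψ_{-m}^(2k-1)`: it is the product of the `L`-functions over
`ℚ` of the newforms of the `ψ_{-D}^(2k-1)`, where `D` is the squarefree part of `m ∏_{i ∈ T} d_i`, over
the subsets `T` of `{1, …, n}`, which correspond to the characters of `Gal(F/ℚ)`. -/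
def IsLOver (m k : ℕ) {n : ℕ} (d : Fin n → ℕ) (Λ : ℂ → ℂ) : Prop :=
  ∃ (D : Finset (Fin n) → ℕ) (L : Finset (Fin n) → ℂ → ℂ),
    (∀ T, Squarefree (D T) ∧ (∃ a : ℕ, a ≠ 0 ∧ m * ∏ i ∈ T, d i = D T * a ^ 2) ∧
      IsL (D T) k (L T)) ∧
    ∀ s, Λ s = ∏ T, L T s

/-- `H⁰(F, V) = 0` for `F = ℚ(s_1, …, s_n)` and the representation `V` of the absolute Galois group of
`ℚ` which is induced from the character `χ` of the one of `K`. -/
def NoInvariants {w : QBar} {n : ℕ} (s : Fin n → QBar) (χ : Chr w) (c₀ : GQ) : Prop :=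
  ∀ y : ℚ_[2] × ℚ_[2], (∀ σ ∈ GF s, ind χ c₀ σ y = y) → y = 0

/-- The formula for the prime `2`, for all even weights `k > 0`, for `F = ℚ(√d_1, …, √d_n)`: the
`L`-function is entire and not zero at the centre; and `H⁰(F, V) = 0` and `H¹_f(F, V) = 0` for the
representation `V` induced from `κ^k κ'^(1-k)`, `κ` and `κ'` being the characters by which the absolute
Galois group of `K = ℚ(w)` acts on the `2`-adic Tate module of the elliptic curve `ED w (tw m)`, which is
isomorphic to `E_{-m}` over `K`. -/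
def OrderFormula (m : ℕ) {n : ℕ} (d : Fin n → ℕ) : Prop :=
  (∀ k : ℕ, 0 < k → Even k → ∃ Λ : ℂ → ℂ, IsLOver m k d Λ ∧ Differentiable ℂ Λ ∧ Λ k ≠ 0) ∧
  ∀ w : QBar, w ^ 2 = w - 2 →
    Iso (EK w m) (ED w (tw m)) ∧ (ED w (tw m)).IsElliptic ∧
    ∃ κ κ' : Chr w, TateModule (tw m) κ κ' ∧
      ∀ s : Fin n → QBar, (∀ i, s i ^ 2 = (d i : QBar)) → ∀ c₀ : GQ, c₀ w = 1 - w →
        ∀ k : ℕ, 0 < k → Even k → NoInvariants s (chi κ κ' k) c₀ ∧ Zero s (chi κ κ' k) c₀

/-! ### The proof -/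

section proof

open Pool.Agent.J4.H67.AW (luc nrm)
open Pool.Agent.J4.H67.EW (Nu trz)
open Pool.Agent.Results.MP_787500_nt.AllWeightsMultiquadraticX49
  (gen gen_sq gen_iso emb curve elliptic selmer_of galL_eq)

lemma luc_eq (a e : ℤ) : ∀ n : ℕ, luc a e n = powerSum a e n
  | 0 => rfl
  | 1 => rfl
  | n + 2 => by rw [luc, powerSum, luc_eq a e (n + 1), luc_eq a e n]

lemma ns_of {p : ℕ} (hp : p.Prime) (h4 : p % 4 = 1) (h : Inert p) : ¬ IsSquare (-7 : ZMod p) := by
  unfold Inert at h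
  rw [Pool.Agent.R428.Q0.sq7_iff hp h4]
  omega

lemma nsq7 : ¬ IsSquare ((3 : ℕ) : ZMod 7) ∧ ¬ IsSquare ((5 : ℕ) : ZMod 7) ∧
    ¬ IsSquare ((6 : ℕ) : ZMod 7) := by decide

lemma ns_of' {p : ℕ} (hp : p.Prime) (h4 : p % 4 = 3) (h : Inert p) : ¬ IsSquare (-7 : ZMod p) := by
  have : Fact p.Prime := ⟨hp⟩
  have : Fact (Nat.Prime 7) := ⟨by norm_num⟩
  unfold Inert at h
  intro h1
  have h7 : (7 : ZMod p) ≠ 0 := by
    intro h0
    have h2 : ((7 : ℕ) : ZMod p) = 0 := by exact_mod_cast h0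
    rw [ZMod.natCast_eq_zero_iff] at h2
    have h3 := (Nat.prime_dvd_prime_iff_eq hp (by norm_num : Nat.Prime 7)).1 h2
    omega
  have h2 : ¬ IsSquare (7 : ZMod p) := by
    rintro ⟨b, hb⟩
    obtain ⟨a, ha⟩ := h1
    have hb0 : b ≠ 0 := by
      rintro rfl
      exact h7 (by rw [hb, zero_mul])
    have h3 : IsSquare (-1 : ZMod p) := by
      refine ⟨a / b, ?_⟩
      field_simp
      have e : -(b * b) = a * a := by rw [← hb, ← ha]
      linear_combination e
    rw [ZMod.exists_sq_eq_neg_one_iff] at h3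
    exact h3 h4
  have h3 := ZMod.exists_sq_eq_prime_iff_of_mod_four_eq_three (p := p) (q := 7) h4 (by norm_num)
    (by omega)
  have e7 : ((7 : ℕ) : ZMod p) = 7 := by norm_cast
  rw [e7] at h3
  have h5 : IsSquare (p : ZMod 7) := by
    by_contra h6
    exact h2 (h3.2 h6)
  have e : ((p : ℕ) : ZMod 7) = ((p % 7 : ℕ) : ZMod 7) := (ZMod.natCast_mod p 7).symm
  rw [e] at h5
  rcases h with h | h | h
  · rw [h] at h5
    exact nsq7.1 h5
  · rw [h] at h5
    exact nsq7.2.1 h5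
  · rw [h] at h5
    exact nsq7.2.2 h5

/-- the sets of the primes -/
lemma exists_nu {m : ℕ} (h : InClass m) : ∃ (q0 : ℕ) (R : Finset ℕ), Nu q0 R ∧
    ∏ i ∈ insert q0 R, i = m ∧ Squarefree m ∧ m % 4 = 3 := by
  obtain ⟨q, r, hq, h8, hqi, hr, hpr, rfl⟩ := h
  have hR : ∀ p ∈ r.primeFactors, p.Prime ∧ p % 4 = 1 ∧ Inert p := fun p hp =>
    ⟨Nat.prime_of_mem_primeFactors hp, hpr p (Nat.prime_of_mem_primeFactors hp)
      (Nat.dvd_of_mem_primeFactors hp)⟩
  have hqr : q ∉ r.primeFactors := fun h => by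
    have := (hR q h).2.1
    omega
  refine ⟨q, r.primeFactors, ⟨hq, h8, ns_of' hq (by omega) hqi, fun p hp =>
    ⟨(hR p hp).1, (hR p hp).2.1, ns_of (hR p hp).1 (hR p hp).2.1 (hR p hp).2.2⟩⟩, ?_, ?_, ?_⟩
  · rw [Finset.prod_insert hqr, Nat.prod_primeFactors_of_squarefree hr]
  · rw [Nat.squarefree_mul]
    · exact ⟨hq.prime.squarefree, hr⟩
    · rw [Nat.Prime.coprime_iff_not_dvd hq]
      intro h
      exact hqr (Nat.mem_primeFactors.2 ⟨hq, h, hr.ne_zero⟩)
  · have h1 := Pool.Agent.Y698.prod_mod_four (S := r.primeFactors) fun p hp => (hR p hp).2.1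
    rw [Nat.prod_primeFactors_of_squarefree hr] at h1
    rw [Nat.mul_mod, h1]
    omega

lemma points_eq {m p : ℕ} {j : ℤ} (hj : -(m : ℤ) = 1 + 4 * j) :
    Nat.card (Pool.Agent.Y698.AP (Pool.Agent.Y698.EX (ZMod p) (j : ZMod p))) = points m p := by
  unfold points
  apply Nat.card_congr
  apply Equiv.subtypeEquivRight
  rintro ⟨x, y⟩
  have h1 : (((3 * m - 1) / 4 : ℕ) : ZMod p) = -(1 + 3 * (j : ZMod p)) := by
    have h2 : (((3 * m - 1) / 4 : ℕ) : ℤ) = -(1 + 3 * j) := by omega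
    have h3 : ((((3 * m - 1) / 4 : ℕ) : ℤ) : ZMod p) = ((-(1 + 3 * j) : ℤ) : ZMod p) := by rw [h2]
    rw [Int.cast_natCast] at h3
    rw [h3]
    push_cast
    ring
  have h2 : (m : ZMod p) = -(1 + 4 * (j : ZMod p)) := by
    have h3 : (m : ℤ) = -(1 + 4 * j) := by omega
    have h4 := congrArg (fun a : ℤ => (a : ZMod p)) h3
    push_cast at h4
    exact h4
  rw [WeierstrassCurve.Affine.equation_iff, h1, h2]
  unfold Pool.Agent.Y698.EX
  constructor
  · intro h
    linear_combination h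
  · intro h
    linear_combination h

/-- the L-function over `ℚ` -/
theorem exists_L {m : ℕ} (hA : InClass m) {k : ℕ} (hk0 : 0 < k) (hk : Even k) :
    ∃ Λ : ℂ → ℂ, IsL m k Λ ∧ Λ k ≠ 0 := by
  obtain ⟨q0, R, hN, hm, -, h4⟩ := exists_nu hA
  obtain ⟨j, hj⟩ : ∃ j : ℤ, -(m : ℤ) = 1 + 4 * j := ⟨-(m + 1) / 4, by omega⟩
  obtain ⟨e, rfl⟩ : ∃ e, k = e + 1 := ⟨k - 1, by omega⟩
  have he : Odd e := by
    rcases Nat.even_or_odd e with h | h
    · exact absurd hk (by simpa [Nat.even_add_one] using h)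
    · exact h
  obtain ⟨F, g1, g2, g3⟩ := Pool.Agent.J4.H67.EW.nonvan Pool.Agent.Y698.SG.inp hN he
    (j := j) (by rw [hm]; exact hj)
  rw [hm] at g2
  refine ⟨F, ⟨g1, fun s hs => ?_⟩, g3⟩
  convert g2 s hs using 5 with p
  · have e2 : ((nrm m (p : ℕ) : ℕ) : ℤ) = det m p := by
      unfold det nrm
      split_ifs <;> simp
    rw [luc_eq, show 2 * (e + 1) - 1 = 2 * e + 1 by omega, e2]
    congr 1
    unfold trace trz
    rw [hm, points_eq hj]
  · unfold det nrm
    rw [show 2 * (e + 1) - 1 = 2 * e + 1 by omega]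
    split_ifs <;> simp

/-- the L-function over `F` -/
theorem exists_LF {m n : ℕ} {d : Fin n → ℕ} (hG : Good m d) {k : ℕ} (hk0 : 0 < k) (hk : Even k) :
    ∃ Λ : ℂ → ℂ, IsLOver m k d Λ ∧ Differentiable ℂ Λ ∧ Λ k ≠ 0 := by
  choose D a ha hA he using hG
  choose L h1 h2 using fun T => exists_L (hA T) hk0 hk
  refine ⟨fun s => ∏ T, L T s, ⟨D, L, fun T => ⟨?_, ⟨a T, ha T, he T⟩, h1 T⟩,
    fun s => rfl⟩, ?_, ?_⟩
  · obtain ⟨q0, R, -, -, hs, -⟩ := exists_nu (hA T)
    exact hs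
  · exact Differentiable.fun_finsetProd fun T _ => (h1 T).1
  · exact Finset.prod_ne_zero_iff.2 fun T _ => h2 T

lemma class_ne {m : ℕ} (h : InClass m) : m ≠ 0 := by
  obtain ⟨q0, R, -, -, hs, -⟩ := exists_nu h
  exact hs.ne_zero

lemma good_ne {m n : ℕ} {d : Fin n → ℕ} (hG : Good m d) : m ≠ 0 ∧ ∀ i, d i ≠ 0 := by
  constructor
  · obtain ⟨D, k, hk, hD, he⟩ := hG ∅
    rw [Finset.prod_empty, mul_one] at he
    rw [he]
    exact mul_ne_zero (class_ne hD) (pow_ne_zero 2 hk)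
  · intro i
    obtain ⟨D, k, hk, hD, he⟩ := hG {i}
    rw [Finset.prod_singleton] at he
    exact right_ne_zero_of_mul (he ▸ mul_ne_zero (class_ne hD) (pow_ne_zero 2 hk))

lemma tw_eq (m : ℕ) : tw m = Pool.Agent.J4.H67.EW.tn m := rfl

lemma tw_iso {w : QBar} (hw : w ^ 2 = w - 2) (m : ℕ) : Iso (EK w m) (ED w (tw m)) := by
  have hg := gen_sq.2 hw
  have hemb : (emb (gen w) (tw m) : K w) = (-(m : K w)) - 2 * (-(m : K w)) * gen w := by
    unfold emb tw
    push_cast
    ring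
  refine ⟨_, Eq.trans (congrArg _ ?_) ((gen_iso (d := (-(m : K w))) hg).trans ?_)⟩
  · unfold EK E WeierstrassCurve.map
    ext
    · simp
    · simp only [map_div₀, map_sub, map_mul, map_natCast, map_ofNat, map_one]
      ring_nf
    · simp
    · simp
    · simp only [map_pow, map_natCast]
      ring_nf
  · unfold ED curve
    rw [hemb]

/-- the formula -/
theorem formula_of {m n : ℕ} {d : Fin n → ℕ} (hG : Good m d) : OrderFormula m d := by
  refine ⟨fun k hk0 hk => exists_LF hG hk0 hk, fun w hw => ?_⟩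
  obtain ⟨hM0, hd0⟩ := good_ne hG
  have hD := Pool.Agent.J4.H67.EW.tn_ne hM0
  obtain ⟨κ, κ', hT, r, I, kd⟩ := Pool.Agent.J4.H67.EW.exists_tate' hw hD
  refine ⟨tw_iso hw m, elliptic hD hw, κ, κ', hT, fun s hs c₀ hc₀ k _ hk => ?_⟩
  have hk' : Even (k : ℤ) := by exact_mod_cast hk
  refine ⟨Pool.Agent.J4.H67.EW.noInv' kd hs hc₀ hk',
    Pool.Agent.Results.MP_6e2fc3_nt.CMFormsAllWeights.zero_of hw hc₀ hs ?_⟩
  rw [galL_eq]
  refine selmer_of hw (Pool.Agent.J4.H67.EW.vanish_mq_neg hw (Pool.Agent.Kdt384.e_sq hw hs) kd hD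
    (Pool.Agent.Kdt384.e_ne hd0) (fun T => ?_) k (Or.inl ⟨hk', rfl, rfl⟩))
    (Pool.Agent.Kdt384.em_om' hw)
  obtain ⟨D, a, ha, hA, he⟩ := hG T
  obtain ⟨q0, R, hN, hm, -, -⟩ := exists_nu hA
  refine ⟨q0, R, ((a : ℤ) : Pool.Agent.R384.OO), hN, ?_, ?_⟩
  · intro h1
    have h2 := congrArg QuadraticAlgebra.re h1
    simp at h2
    exact ha h2
  · rw [hm, Pool.Agent.J4.H67.EW.tn_eq]
    have h1 : ((m : ℤ) : Pool.Agent.R384.OO) * ∏ i ∈ T, (((d i : ℤ) : Pool.Agent.R384.OO)) =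
        ((D : ℤ) : Pool.Agent.R384.OO) * ((a : ℤ) : Pool.Agent.R384.OO) ^ 2 := by
      have h2 : (m : ℤ) * ∏ i ∈ T, (d i : ℤ) = (D : ℤ) * (a : ℤ) ^ 2 := by exact_mod_cast he
      have h3 := congrArg (fun a : ℤ => (a : Pool.Agent.R384.OO)) h2
      simp only [Int.cast_mul, Int.cast_pow, Int.cast_prod] at h3
      exact h3
    have h4 : ((D : ℕ) : Pool.Agent.R384.OO) = ((D : ℤ) : Pool.Agent.R384.OO) := by push_cast; rfl
    rw [h4]
    linear_combination Pool.Agent.R384.s7 * h1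

/-- products of primes of the class -/
lemma good_of {m n : ℕ} {d : Fin n → ℕ} (hm : InClass m)
    (hd : ∀ i, d i ≠ 0 ∧ ∀ p : ℕ, p.Prime → p ∣ d i → p % 4 = 1 ∧ Inert p) : Good m d := by
  intro T
  obtain ⟨q, r, hq, h8, hqi, hr, hpr, rfl⟩ := hm
  obtain ⟨a, b, hab, ha⟩ := Nat.sq_mul_squarefree (r * ∏ i ∈ T, d i)
  have hne : r * ∏ i ∈ T, d i ≠ 0 := mul_ne_zero hr.ne_zero
    (Finset.prod_ne_zero_iff.2 fun i _ => (hd i).1)
  refine ⟨q * a, b, ?_, ⟨q, a, hq, h8, hqi, ha, fun p hp hpa => ?_, rfl⟩, ?_⟩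
  · rintro rfl
    apply hne
    rw [← hab]
    ring
  · have h1 : p ∣ r * ∏ i ∈ T, d i := by
      rw [← hab]
      exact hpa.mul_left _
    rcases (hp.dvd_mul).1 h1 with h2 | h2
    · exact hpr p hp h2
    · obtain ⟨i, -, hi⟩ := (hp.prime.dvd_finsetProd_iff _).1 h2
      exact (hd i).2 p hp hi
  · rw [mul_assoc, ← hab]
    ring

end proof

/-- **The order of vanishing formula in all even weights.** -/
theorem result :
    (∀ (n m : ℕ) (d : Fin n → ℕ), Ind d → Good m d → OrderFormula m d) ∧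
    ∀ (n m : ℕ) (d : Fin n → ℕ), InClass m →
      (∀ i, d i ≠ 0 ∧ ∀ p : ℕ, p.Prime → p ∣ d i → p % 4 = 1 ∧ Inert p) → Good m d :=
  ⟨fun _ _ _ _ h => formula_of h, fun _ _ _ h h' => good_of h h'⟩

end Pool.Agent.Results.MP_ec4e4b_nt.AllEvenWeights
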