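import Mathlib
import Pool.Agent.J4.H67.AW.Nw
import Pool.Agent.J4.H67.AW.Gl
import Pool.Agent.Y698.SG.Inp

/-!
# The order of vanishing formula of Bloch and Kato in all odd weights, for the powers of the Hecke
# characters of the quadratic twists of `X_0(49)`, over multiquadratic fields

Let `E_M` be the quadratic twist by `M` of `X_0(49)`, `ψ_M` its Hecke character over
`K = ℚ(√-7) = ℚ(w)`, `w² = w - 2`, and let `k > 0` be odd. The newform of weight `2k` of the
character `ψ_M^(2k-1)` has a polarized Chow motive over `ℚ`, a direct summand of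
`h^(2k-1)(E_M^(2k-1))(k)`, whose `2`-adic realization `V` is induced from the character
`κ^k κ'^(1-k)` of `Gal(ℚ̄/K)`; here `κ`, `κ'` are the characters by which `Gal(ℚ̄/K)` acts on the
`2`-adic Tate module of `E_M`. The `L`-function is `Λ(k + s)`, `Λ(s)` being the product over the primes
of `(1 - (α^(2k-1) + β^(2k-1)) p^(-s) + p^(2k-1) p^(-2s))⁻¹`, where `α`, `β` are the eigenvalues of the
Frobenius element of `E_M` at `p` (and `1` at the primes `p` that divide `7 M`).

Theorem: let `F = ℚ(√d_1, …, √d_n)`, of degree `2 ^ n`, and assume that all the numbers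
`M ∏_{i ∈ T} d_i` are, up to squares, numbers `D` of the class such that `E_D(ℚ)` is finite and
`Ш(E_D/ℚ)` has no element of order two (a condition on the weight `2` and the field `ℚ` only). Then for
ALL odd `k > 0` the `L`-function of the motive over `F` is entire and not zero at the centre,
`H⁰(F, V) = 0` and `H¹_f(F, V) = 0`: this is the order of vanishing formula for the prime `2`.
The condition is satisfied for a proportion of at least `c ^ (2 ^ n)`, `c = 0.419…`, of the twists by the
`D` of the class, for every `F` (and for `n = 0` for at least 41.9 percent of the class), and for a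
positive proportion of the quadratic extensions `F(√D)` if it is satisfied for `F`.

The new part is the nonvanishing of the central values for all the weights at once. Let `k = e + 1`. The
central value `L(ψ_M^(2e+1), e + 1)` is a sum, over the division points modulo `√-7 M`, of values of the
numbers of Eisenstein and Kronecker `∑ (conj (u + l))^e / (u + l)^(e+1)`, which are polynomials in
`℘`, `℘'`, and a second period. We prove that for even `e` the parts of these sums which matter are
congruent modulo `4` (times a period) to those for `e = 0`; the error terms of order two modulo `4` are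
controlled through distribution relations. By an induction over the prime divisors of `M` in `K` the
`2`-adic valuation of `e! L(ψ_M^(2e+1), e + 1)`, divided by the period, is the one predicted by the
determinant of the quadratic residue symbols which also decides the descent in weight two.
-/

set_option autoImplicit false

namespace Pool.Agent.Results.MP_ec4e4b_nt.AllOddWeights

open Pool.Agent.Results.MP_787500_nt.AllWeightsMultiquadraticX49
open Pool.Agent.Results.MP_6e2fc3_nt.CMFormsAllWeights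
open WeierstrassCurve Filter Topology

/-- The number of the solutions modulo `p` of the equation
`y² + x y = x³ - ((3 D + 1) / 4) x² - 2 D² x - D³` of the curve `E_D`, for `D = 1` modulo `4`. -/
noncomputable def points (D p : ℕ) : ℕ :=
  Nat.card {P : ZMod p × ZMod p // P.2 ^ 2 + P.1 * P.2 = P.1 ^ 3 -
    (((3 * D + 1) / 4 : ℕ) : ZMod p) * P.1 ^ 2 - 2 * (D : ZMod p) ^ 2 * P.1 - (D : ZMod p) ^ 3}

/-- The trace of the Frobenius element of `E_D` at the prime `p`, and zero if `p` divides `7 D`. -/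
noncomputable def trace (D p : ℕ) : ℤ := if p ∣ 7 * D then 0 else (p : ℤ) - points D p

/-- The number `p`, and zero if `p` divides `7 D`. -/
def det (D p : ℕ) : ℤ := if p ∣ 7 * D then 0 else p

/-- The sum `α ^ n + β ^ n` for the roots `α`, `β` of `X² - a X + e`. -/
def powerSum (a e : ℤ) : ℕ → ℤ
  | 0 => 2
  | 1 => a
  | n + 2 => a * powerSum a e (n + 1) - e * powerSum a e n

/-- The entire function `Λ` is the `L`-function of the newform of weight `2k` of the Hecke character
`ψ_D^(2k-1)`, as an Euler product for `Re s > k + 1/2`. The centre is `s = k`. -/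
def IsL (D k : ℕ) (Λ : ℂ → ℂ) : Prop :=
  Differentiable ℂ Λ ∧ ∀ s : ℂ, (k : ℝ) + 1 / 2 < s.re → HasProd (fun p : Nat.Primes =>
    (1 - (powerSum (trace D p) (det D p) (2 * k - 1) : ℂ) * ((p : ℕ) : ℂ) ^ (-s) +
      (det D p : ℂ) ^ (2 * k - 1) * (((p : ℕ) : ℂ) ^ (-s)) ^ 2)⁻¹) (Λ s)

/-- For `d_1, …, d_n` independent modulo squares, `Λ` is the `L`-function over
`F = ℚ(√d_1, …, √d_n)` of the newform of `ψ_M^(2k-1)`: it is the product of the `L`-functions over
`ℚ` of the newforms of the `ψ_D^(2k-1)`, where `D` is the squarefree part of `M ∏_{i ∈ T} d_i`, over the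
subsets `T` of `{1, …, n}`, which correspond to the characters of `Gal(F/ℚ)`. -/
def IsLOver (M k : ℕ) {n : ℕ} (d : Fin n → ℕ) (Λ : ℂ → ℂ) : Prop :=
  ∃ (D : Finset (Fin n) → ℕ) (L : Finset (Fin n) → ℂ → ℂ),
    (∀ T, Squarefree (D T) ∧ (∃ m : ℕ, m ≠ 0 ∧ M * ∏ i ∈ T, d i = D T * m ^ 2) ∧
      IsL (D T) k (L T)) ∧
    ∀ s, Λ s = ∏ T, L T s

/-- `H⁰(F, V) = 0` for `F = ℚ(s_1, …, s_n)` and the representation `V` of the absolute Galois group of
`ℚ` which is induced from the character `χ` of the one of `K`. -/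
def NoInvariants {w : QBar} {n : ℕ} (s : Fin n → QBar) (χ : Chr w) (c₀ : GQ) : Prop :=
  ∀ y : ℚ_[2] × ℚ_[2], (∀ σ ∈ GF s, ind χ c₀ σ y = y) → y = 0

/-- The formula for the prime `2`, for all odd weights `k > 0`, for `F = ℚ(√d_1, …, √d_n)`: the
`L`-function is entire and not zero at the centre; and `H⁰(F, V) = 0` and `H¹_f(F, V) = 0` for the
representation `V` induced from `κ^k κ'^(1-k)`, `κ` and `κ'` being the characters by which the absolute
Galois group of `K = ℚ(w)` acts on the `2`-adic Tate module of the elliptic curve `ED w (tw M)`, which is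
isomorphic to `E_M` over `K`. -/
def OrderFormula (M : ℕ) {n : ℕ} (d : Fin n → ℕ) : Prop :=
  (∀ k : ℕ, Odd k → ∃ Λ : ℂ → ℂ, IsLOver M k d Λ ∧ Differentiable ℂ Λ ∧ Λ k ≠ 0) ∧
  ∀ w : QBar, w ^ 2 = w - 2 →
    Iso (EK w M) (ED w (tw M)) ∧ (ED w (tw M)).IsElliptic ∧
    ∃ κ κ' : Chr w, TateModule (tw M) κ κ' ∧
      ∀ s : Fin n → QBar, (∀ i, s i ^ 2 = (d i : QBar)) → ∀ c₀ : GQ, c₀ w = 1 - w →
        ∀ k : ℕ, Odd k → NoInvariants s (chi κ κ' k) c₀ ∧ Zero s (chi κ κ' k) c₀

/-! ### The proof -/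

section proof

open Pool.Agent.R426.QB (Ac Ac8 GO Nsq)
open Pool.Agent.J4.H67.AW (luc trc nrm)

lemma luc_eq (a e : ℤ) : ∀ n : ℕ, luc a e n = powerSum a e n
  | 0 => rfl
  | 1 => rfl
  | n + 2 => by rw [luc, powerSum, luc_eq a e (n + 1), luc_eq a e n]

lemma points_eq {D j p : ℕ} (hD : D = 1 + 4 * j) :
    Nat.card (Pool.Agent.Y698.AP (Pool.Agent.Y698.EX (ZMod p) (j : ZMod p))) = points D p := by
  unfold points
  apply Nat.card_congr
  apply Equiv.subtypeEquivRight
  rintro ⟨x, y⟩
  have h1 : (3 * D + 1) / 4 = 1 + 3 * j := by omega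
  rw [WeierstrassCurve.Affine.equation_iff, h1, hD]
  unfold Pool.Agent.Y698.EX
  push_cast
  constructor
  · intro h
    linear_combination h
  · intro h
    linear_combination h

/-- the L-function over `ℚ` -/
theorem exists_L {D : ℕ} (hA : Adm D) (hR : RankZeroShaTwo D) {k : ℕ} (hk : Odd k) :
    ∃ Λ : ℂ → ℂ, IsL D k Λ ∧ Λ k ≠ 0 := by
  have hA' := (adm_iff D).1 hA
  have hgd := (good_iff hA'.1).1 hR
  rw [Pool.Agent.R428.Q0.gd_iff] at hgd
  obtain ⟨hQ, hP, hDu⟩ := sets hA'.1
  obtain ⟨j, hj⟩ : ∃ j, D = 1 + 4 * j := ⟨D / 4, by have := hA.2.1; omega⟩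
  obtain ⟨m, hm⟩ := hk
  obtain ⟨F, g1, g2, g3⟩ := Pool.Agent.J4.H67.AW.nonvan_pts Pool.Agent.Y698.SG.inp hQ hP hgd
    (by rw [hDu]; exact hA.2.1) (hDu.trans hj) m
  rw [hDu] at g2
  refine ⟨F, ⟨g1, fun s hs => ?_⟩, by rw [hm]; exact g3⟩
  rw [hm] at hs
  convert g2 s hs using 5 with p
  · have e2 : ((nrm D (p : ℕ) : ℕ) : ℤ) = det D p := by
      unfold det nrm
      split_ifs <;> simp
    rw [luc_eq, show 2 * k - 1 = 4 * m + 1 by omega, e2]
    congr 1
    unfold trace trc
    rw [hDu, points_eq hj]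
  · unfold det nrm
    rw [show 2 * k - 1 = 4 * m + 1 by omega]
    split_ifs <;> simp

/-- the L-function over `F` -/
theorem exists_LF {M n : ℕ} {d : Fin n → ℕ} (hG : Good M d) {k : ℕ} (hk : Odd k) :
    ∃ Λ : ℂ → ℂ, IsLOver M k d Λ ∧ Differentiable ℂ Λ ∧ Λ k ≠ 0 := by
  choose D m hm hA hR he using hG
  choose L h1 h2 using fun T => exists_L (hA T) (hR T) hk
  refine ⟨fun s => ∏ T, L T s, ⟨D, L, fun T => ⟨(hA T).1, ⟨m T, hm T, he T⟩, h1 T⟩,
    fun s => rfl⟩, ?_, ?_⟩
  · exact Differentiable.fun_finsetProd fun T _ => (h1 T).1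
  · exact Finset.prod_ne_zero_iff.2 fun T _ => h2 T

/-- the formula -/
theorem formula_of {M n : ℕ} {d : Fin n → ℕ} (hG : Good M d) : OrderFormula M d := by
  refine ⟨fun k hk => exists_LF hG hk, fun w hw => ?_⟩
  obtain ⟨hM0, hd0⟩ := Pool.Agent.Kdt384.good_ne hG
  have hD := tw_ne hM0
  obtain ⟨κ, κ', hT, r, I, kd⟩ := Pool.Agent.Kdt384.exists_tate hw hM0
  refine ⟨tw_iso hw M, elliptic hD hw, κ, κ', hT, fun s hs c₀ hc₀ k hk => ?_⟩
  have hk' : Odd (k : ℤ) := by exact_mod_cast hk
  refine ⟨Pool.Agent.J4.H67.AW.noInv kd hs hc₀ hk', zero_of hw hc₀ hs ?_⟩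
  rw [galL_eq]
  exact selmer_of hw (Pool.Agent.R384.vanish_mq hw (Pool.Agent.Kdt384.e_sq hw hs) kd hD
    (Pool.Agent.Kdt384.e_ne hd0) (Pool.Agent.Kdt384.good_fac hG) k (Or.inr ⟨hk', rfl, rfl⟩))
    (Pool.Agent.Kdt384.em_om' hw)

open scoped Classical in
lemma prop_good {n M : ℕ} {d : Fin n → ℕ} (h : InClass M d) :
    AtLeast (c ^ 2 ^ n) fun D => OrderFormula (M * D) d := by
  obtain ⟨hM, hd, hI⟩ := h
  intro x hx
  have h := Pool.Agent.R426.QB.prop_field Pool.Agent.Y687.JQ.t_JDEN (n := n)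
    (d := fun i => (d i : ℤ)) (nsq_of (fun i => (hd i).1.ne_zero) hI)
    (fun i => acS_of (hd i)) (N := (M : ℤ)) (acS_of hM)
  filter_upwards [h.eventually_const_lt hx] with X hX
  refine lt_of_lt_of_le hX (prop_mono (P := fun D => GO (fun i => (d i : ℤ)) ((M : ℤ) * D))
    (fun D hD => formula_of (good_of ?_ (fun i => (hd i).2.1) ?_)) X)
  · rw [Nat.mul_mod, hM.2.1, hD.1.2]
  · have h1 := hD.2
    push_cast
    exact h1

end proof

/-- **The order of vanishing formula in all odd weights.** -/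
theorem result :
    (∀ (n M : ℕ) (d : Fin n → ℕ), Ind d → Good M d → OrderFormula M d) ∧
    (∀ (n M : ℕ) (d : Fin n → ℕ), InClass M d →
      AtLeast (c ^ 2 ^ n) fun D => OrderFormula (M * D) d) ∧
    (∀ (n M : ℕ) (d : Fin n → ℕ), InClass M d → Good M d → AtLeast (c ^ 2 ^ n) fun D =>
      Ind (add d D) ∧ Good M (add d D) ∧ OrderFormula M (add d D)) ∧
    0.4194 < c ∧ c < 0.4195 := by
  obtain ⟨-, -, h3, h4, h5⟩ := Pool.Agent.Results.MP_787500_nt.AllWeightsMultiquadraticX49.result
  refine ⟨fun n M d _ h => formula_of h, fun n M d h => prop_good h, fun n M d h h' => ?_, h4, h5⟩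
  exact atLeast_mono (fun D hD => ⟨hD.1, hD.2.1, formula_of hD.2.1⟩) (h3 n M d h h')

end Pool.Agent.Results.MP_ec4e4b_nt.AllOddWeights
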